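import Pool.Agent.R497.NC.Defs

set_option autoImplicit false

/-!
# NC-DEC (helper507): decomposition of an indicator function by Levy's upward theorem
-/

namespace Pool.Agent.R497.NC

open MeasureTheory Filter Finset
open scoped InnerProductSpace ENNReal

namespace DEC507

theorem inv_mono {α : Type} [MeasurableSpace α] (T : Equiv.Perm α) {r r' : ℕ} (h : r ∣ r') :
    MeasurableSpace.invariants ⇑(T ^ r) ≤ MeasurableSpace.invariants ⇑(T ^ r') := by
  obtain ⟨k, rfl⟩ := h
  rw [pow_mul, ← Equiv.Perm.iterate_eq_pow (T ^ r) k]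
  exact MeasurableSpace.le_invariants_iterate _ _

/-- the filtration -/
def Fl {α : Type} [m0 : MeasurableSpace α] (T : Equiv.Perm α) : Filtration ℕ m0 where
  seq j := MeasurableSpace.invariants ⇑(T ^ (j.factorial))
  mono' := fun _ _ h => inv_mono T (Nat.factorial_dvd_factorial h)
  le' := fun _ => MeasurableSpace.invariants_le _

/-- clipping -/
noncomputable def cl (x : ℝ) : ℝ := max 0 (min 1 x)

theorem cl_mem (x : ℝ) : 0 ≤ cl x ∧ cl x ≤ 1 :=
  ⟨le_max_left _ _, max_le zero_le_one (min_le_left _ _)⟩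

theorem cl_eq {x : ℝ} (h0 : 0 ≤ x) (h1 : x ≤ 1) : cl x = x := by
  unfold cl
  rw [min_eq_right h1, max_eq_right h0]

theorem meas_cl : Measurable cl := measurable_const.max (measurable_const.min measurable_id)

end DEC507

open DEC507 in
theorem tDEC : S_DEC := by
  intro α m0 μ _ T A hT hA ε hε
  set f : α → ℝ := A.indicator 1 with hf
  have hfm : Measurable f := measurable_one.indicator hA
  have hf0 : ∀ x, 0 ≤ f x := fun x => Set.indicator_nonneg (fun _ _ => zero_le_one) x
  have hf1 : ∀ x, f x ≤ 1 := fun x => Set.indicator_le' (fun _ _ => le_rfl)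
    (fun _ _ => zero_le_one) x
  have hfi : Integrable f μ := Integrable.of_bound hfm.aestronglyMeasurable 1
    (Eventually.of_forall fun x => by
      rw [Real.norm_of_nonneg (hf0 x)]
      exact hf1 x)
  have hce : ∀ m : MeasurableSpace α, m ≤ m0 → ∀ᵐ x ∂μ, 0 ≤ (μ[f | m]) x ∧ (μ[f | m]) x ≤ 1 := by
    intro m hm
    have h1 : 0 ≤ᵐ[μ] μ[f | m] := condExp_nonneg (Eventually.of_forall hf0)
    have h2 : μ[f | m] ≤ᵐ[μ] μ[(fun _ => (1 : ℝ)) | m] :=
      condExp_mono hfi (integrable_const _) (Eventually.of_forall hf1)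
    rw [condExp_const hm] at h2
    filter_upwards [h1, h2] with x a b
    exact ⟨a, b⟩
  have hsup : (⨆ n, (Fl T) n) ≤ m0 := iSup_le fun n => (Fl T).le n
  set g : α → ℝ := μ[f | ⨆ n, (Fl T) n] with hg
  have hlev : Tendsto (fun n => eLpNorm (μ[f | (Fl T) n] - g) 1 μ) atTop (nhds 0) :=
    tendsto_eLpNorm_condExp (ℱ := Fl T) f
  obtain ⟨j, hj⟩ : ∃ j, eLpNorm (μ[f | (Fl T) j] - g) 1 μ ≤ ENNReal.ofReal (ε / 2) := by
    have h1 : (0 : ℝ≥0∞) < ENNReal.ofReal (ε / 2) := ENNReal.ofReal_pos.2 (by linarith)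
    obtain ⟨j, hj⟩ := (hlev.eventually (gt_mem_nhds h1)).exists
    exact ⟨j, hj.le⟩
  refine ⟨j.factorial, Nat.factorial_pos j, ?_⟩
  intro r hr hrj
  have hmr : MeasurableSpace.invariants ⇑(T ^ r) ≤ m0 := MeasurableSpace.invariants_le _
  have hle1 : (Fl T) j ≤ MeasurableSpace.invariants ⇑(T ^ r) := inv_mono T hrj
  have hle2 : ∀ s : ℕ, 0 < s → MeasurableSpace.invariants ⇑(T ^ s) ≤ ⨆ n, (Fl T) n := by
    intro s hs
    refine le_trans ?_ (le_iSup (fun n => (Fl T) n) s)
    exact inv_mono T (Nat.dvd_factorial hs le_rfl)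
  set Ef : α → ℝ := μ[f | MeasurableSpace.invariants ⇑(T ^ r)] with hEf
  set Fj : α → ℝ := μ[f | (Fl T) j] with hFj
  have hgi : Integrable g μ := integrable_condExp
  have hFi : Integrable Fj μ := integrable_condExp
  have hEi : Integrable Ef μ := integrable_condExp
  have e1 : μ[g | MeasurableSpace.invariants ⇑(T ^ r)] =ᵐ[μ] Ef :=
    condExp_condExp_of_le (hle2 r hr) hsup
  have e2 : μ[Fj | MeasurableSpace.invariants ⇑(T ^ r)] = Fj :=
    condExp_of_stronglyMeasurable hmr (stronglyMeasurable_condExp.mono hle1) hFi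
  have e3 : μ[g - Fj | MeasurableSpace.invariants ⇑(T ^ r)] =ᵐ[μ] Ef - Fj := by
    refine (condExp_sub hgi hFi _).trans ?_
    rw [e2]
    exact e1.sub EventuallyEq.rfl
  have b1 : eLpNorm (Ef - Fj) 1 μ ≤ ENNReal.ofReal (ε / 2) := by
    rw [← eLpNorm_congr_ae e3]
    refine (eLpNorm_condExp_le_eLpNorm _ le_rfl).trans ?_
    rw [eLpNorm_sub_comm]
    exact hj
  have b2 : eLpNorm (Ef - g) 1 μ ≤ ENNReal.ofReal ε := by
    have h1 : Ef - g = (Ef - Fj) + (Fj - g) := by
      rw [sub_add_sub_cancel]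
    rw [h1]
    refine (eLpNorm_add_le (hEi.sub hFi).aestronglyMeasurable
      (hFi.sub hgi).aestronglyMeasurable le_rfl).trans ?_
    refine (add_le_add b1 hj).trans (le_of_eq ?_)
    rw [← ENNReal.ofReal_add (by linarith) (by linarith)]
    congr 1
    ring
  have b3 : ∫ x, ‖(Ef - g) x‖ ∂μ ≤ ε := by
    rw [eLpNorm_one_eq_lintegral_enorm, ← ofReal_integral_norm_eq_lintegral_enorm (hEi.sub hgi),
      ENNReal.ofReal_le_ofReal_iff hε.le] at b2
    exact b2
  have cE := hce _ hmr
  have cg := hce _ hsup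
  have hEm : StronglyMeasurable[MeasurableSpace.invariants ⇑(T ^ r)] Ef :=
    stronglyMeasurable_condExp
  have hum : Measurable[MeasurableSpace.invariants ⇑(T ^ r)] (fun x => cl (Ef x)) :=
    meas_cl.comp hEm.measurable
  have hgm : Measurable g := (stronglyMeasurable_condExp.mono hsup).measurable
  refine ⟨fun x => cl (Ef x), fun x => f x - cl (g x), hum.mono hmr le_rfl,
    hfm.sub (meas_cl.comp hgm), fun x => cl_mem _, ?_, ?_, ?_, ?_, ?_⟩
  · intro x
    have h1 := cl_mem (g x)
    have h2 := hf0 x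
    have h3 := hf1 x
    rw [abs_le]
    constructor <;> linarith [h1.1, h1.2]
  · -- orthogonality
    rintro s hs k hk ⟨C, hC⟩ hinv
    have hkm : Measurable[MeasurableSpace.invariants ⇑(T ^ s)] k := by
      rw [MeasurableSpace.measurable_invariants_dom]
      refine ⟨hk, fun S _ => ?_⟩
      have : k ∘ ⇑(T ^ s) = k := funext hinv
      rw [this]
    have hkS : StronglyMeasurable[⨆ n, (Fl T) n] k :=
      (hkm.mono (hle2 s hs) le_rfl).stronglyMeasurable
    have hkf : Integrable (k * f) μ := by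
      refine Integrable.of_bound (hk.mul hfm).aestronglyMeasurable C
        (Eventually.of_forall fun x => ?_)
      rw [Pi.mul_apply, norm_mul, Real.norm_of_nonneg (hf0 x)]
      have h1 : ‖k x‖ ≤ C := hC x
      nlinarith [norm_nonneg (k x), hf0 x, hf1 x]
    have hpull := condExp_mul_of_stronglyMeasurable_left hkS hkf hfi
    have i1 : ∫ x, k x * g x ∂μ = ∫ x, k x * f x ∂μ := by
      have h1 : ∫ x, (μ[k * f | ⨆ n, (Fl T) n]) x ∂μ = ∫ x, (k * f) x ∂μ :=
        integral_condExp hsup
      rw [integral_congr_ae hpull] at h1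
      exact h1
    have i2 : ∫ x, (f x - cl (g x)) * k x ∂μ = ∫ x, (k x * f x - k x * g x) ∂μ := by
      apply integral_congr_ae
      filter_upwards [cg] with x hx
      rw [cl_eq hx.1 hx.2]
      ring
    have hkg : Integrable (fun x => k x * g x) μ := by
      have h1 : Integrable (μ[k * f | ⨆ n, (Fl T) n]) μ := integrable_condExp
      exact h1.congr hpull
    have hkf' : Integrable (fun x => k x * f x) μ := hkf
    rw [i2, integral_sub hkf' hkg, i1, sub_self]
  · intro x
    exact congrFun (MeasurableSpace.comp_eq_of_measurable_invariants hum) x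
  · refine le_trans (le_of_eq ?_) b3
    apply integral_congr_ae
    filter_upwards [cE, cg] with x hx hy
    rw [Pi.sub_apply, Real.norm_eq_abs]
    change |f x - cl (Ef x) - (f x - cl (g x))| = |Ef x - g x|
    rw [cl_eq hx.1 hx.2, cl_eq hy.1 hy.2, abs_sub_comm (Ef x)]
    congr 1
    ring
  · filter_upwards [cE] with x hx
    exact cl_eq hx.1 hx.2

end Pool.Agent.R497.NC
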